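import Pool.Agent.H.MP_4c107d_co.D

namespace Pool.Agent.Results.MP_4c107d_co.Finite
open Finset Pool.Agent.H.MP_4c107d_co

/-- The family `G` packs into `H`: injective edge-preserving maps with pairwise disjoint
image edge sets. -/
def Packs {k : ℕ} {V W : Type} (G : Fin k → SimpleGraph V) (H : SimpleGraph W) : Prop :=
  ∃ φ : Fin k → V → W, (∀ i, Function.Injective (φ i)) ∧
    (∀ i u v, (G i).Adj u v → H.Adj (φ i u) (φ i v)) ∧
    ∀ i j, i ≠ j → Disjoint (Sym2.map (φ i) '' (G i).edgeSet) (Sym2.map (φ j) '' (G j).edgeSet)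

/-- `P n k`: every family of `k` trees with `n` vertices in each class (vertex set
`Fin n ⊕ Fin n`, the two summands being the classes) packs into `K_{2n-1,k}`. -/
def P (n k : ℕ) : Prop :=
  ∀ T : Fin k → SimpleGraph (Fin n ⊕ Fin n), (∀ i, (T i).IsTree) →
    (∀ i, T i ≤ completeBipartiteGraph (Fin n) (Fin n)) →
    Packs T (completeBipartiteGraph (Fin (2 * n - 1)) (Fin k))

open Classical in
noncomputable def nb {n : ℕ} (G : SimpleGraph (Fin (n + 1) ⊕ Fin (n + 1))) (y : Fin (n + 1)) :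
    Finset (Fin (n + 1)) := univ.filter fun x => G.Adj (Sum.inl x) (Sum.inr y)

theorem mem_nb {n : ℕ} (G : SimpleGraph (Fin (n + 1) ⊕ Fin (n + 1))) (x y : Fin (n + 1)) :
    x ∈ nb G y ↔ G.Adj (Sum.inl x) (Sum.inr y) := by simp [nb]

theorem adj_cases {n : ℕ} (G : SimpleGraph (Fin n ⊕ Fin n))
    (h : G ≤ completeBipartiteGraph (Fin n) (Fin n)) (u v : Fin n ⊕ Fin n) (huv : G.Adj u v) :
    (∃ x y, u = Sum.inl x ∧ v = Sum.inr y) ∨ (∃ x y, u = Sum.inr y ∧ v = Sum.inl x) := by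
  have := h huv
  rcases u with x | y <;> rcases v with x' | y' <;> simp at this ⊢

theorem edge_cases {n : ℕ} (G : SimpleGraph (Fin n ⊕ Fin n))
    (h : G ≤ completeBipartiteGraph (Fin n) (Fin n)) (e : Sym2 (Fin n ⊕ Fin n))
    (he : e ∈ G.edgeSet) : ∃ x y, G.Adj (Sum.inl x) (Sum.inr y) ∧ e = s(Sum.inl x, Sum.inr y) := by
  induction e using Sym2.ind with
  | h u v =>
    rcases adj_cases G h u v he with ⟨x, y, rfl, rfl⟩ | ⟨x, y, rfl, rfl⟩
    · exact ⟨x, y, he, rfl⟩
    · exact ⟨x, y, (G.adj_symm he), Sym2.eq_swap⟩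

theorem good {n : ℕ} (G : SimpleGraph (Fin (n + 1) ⊕ Fin (n + 1))) (hT : G.IsTree)
    (h : G ≤ completeBipartiteGraph (Fin (n + 1)) (Fin (n + 1))) {A : Type} [Fintype A]
    [DecidableEq A] (hA : Fintype.card A = 2 * n + 1) (ι : Fin (n + 1) ↪ A) :
    Good (fun y => (nb G y).map ι) := by
  classical
  haveI : Nontrivial (Fin (n + 1) ⊕ Fin (n + 1)) := ⟨⟨Sum.inl 0, Sum.inr 0, by simp⟩⟩
  have hdeg : ∀ u, ∃ v, G.Adj u v := fun u =>
    hT.connected.preconnected.exists_adj_of_nontrivial u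
  let E : Finset (Fin (n + 1) × Fin (n + 1)) := univ.filter fun p => G.Adj (Sum.inl p.1) (Sum.inr p.2)
  have hE : E.card = 2 * n + 1 := by
    have h1 := hT.card_edgeFinset
    have h2 : E.card = G.edgeFinset.card := by
      apply Finset.card_bij (fun p _ => s(Sum.inl p.1, Sum.inr p.2))
      · intro p hp; simpa [E] using hp
      · intro p _ q _ hh; simpa [Prod.ext_iff] using hh
      · intro e he
        obtain ⟨x, y, h1, rfl⟩ := edge_cases G h e (by simpa using he)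
        exact ⟨(x, y), by simpa [E] using h1, rfl⟩
    simp at h1; omega
  have hs : ∑ y, (nb G y).card = 2 * n + 1 := by
    rw [← hE, Finset.card_filter, Fintype.sum_prod_type_right]
    refine Finset.sum_congr rfl fun y _ => ?_
    rw [nb, Finset.card_filter]
  have hs' : ∑ x, (univ.filter fun y => x ∈ nb G y).card = 2 * n + 1 := by
    rw [← hE, Finset.card_filter, Fintype.sum_prod_type]
    refine Finset.sum_congr rfl fun x _ => ?_
    rw [Finset.card_filter]; simp only [mem_nb]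
  refine ⟨by simpa using hs, fun y => ?_, ?_, fun a a' hne => ?_⟩
  · obtain ⟨v, hv⟩ := hdeg (Sum.inr y)
    rcases adj_cases G h _ _ hv with ⟨x, y', h1, _⟩ | ⟨x, y', _, rfl⟩
    · simp at h1
    · exact ⟨ι x, Finset.mem_map_of_mem _ ((mem_nb _ _ _).2 hv.symm)⟩
  · obtain ⟨x, _, hx⟩ : ∃ x ∈ (univ : Finset (Fin (n + 1))),
        (univ.filter fun y => x ∈ nb G y).card < 2 := by
      apply Finset.exists_lt_of_sum_lt
      rw [hs']; simp; omega
    obtain ⟨v, hv⟩ := hdeg (Sum.inl x)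
    rcases adj_cases G h _ _ hv with ⟨x', y, _, rfl⟩ | ⟨x', y', h1, _⟩
    · have hy := (mem_nb _ _ _).2 hv
      refine ⟨ι x, y, Finset.mem_map_of_mem _ hy, fun z hz hh => hz ?_⟩
      have hh' : x ∈ nb G z := by simpa using hh
      exact Finset.card_le_one.1 (Nat.lt_succ_iff.1 hx) z (by simpa using hh') y (by simpa using hy)
    · simp at h1
  · have h2 : 1 < Fintype.card A := Fintype.one_lt_card_iff.2 ⟨a, a', hne⟩
    obtain ⟨u, _, hu⟩ : ∃ u ∈ (univ : Finset A), u ∉ univ.map ι := by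
      apply Finset.exists_mem_notMem_of_card_lt_card
      simp; omega
    exact ⟨u, fun y hh => hu (Finset.map_subset_map.2 (Finset.subset_univ _) hh)⟩

theorem result : ∀ n : ℕ, 1 ≤ n → ∃ k₀ : ℕ, 1 ≤ k₀ ∧ ∀ k, k₀ ≤ k → P n k := by
  intro n hn
  obtain ⟨n, rfl⟩ : ∃ m, n = m + 1 := ⟨n - 1, by omega⟩
  have hA : Fintype.card (Fin (2 * (n + 1) - 1)) = 2 * n + 1 := by simp; omega
  obtain ⟨k0, hk0⟩ := mainB hA
  refine ⟨k0 + 1, by omega, fun k hk T hT hb => ?_⟩
  let ι : Fin (n + 1) ↪ Fin (2 * (n + 1) - 1) := Fin.castLEEmb (by omega)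
  obtain ⟨γ, β, h1, h2, h3⟩ := hk0 (Fin k) (fun i y => (nb (T i) y).map ι) univ
    (fun i _ => good (T i) (hT i) (hb i) hA ι) (by simp; omega)
  have h2' : ∀ i y, β i y < k := fun i y => by simpa using h2 i (mem_univ _) y
  refine ⟨fun i => Sum.map (fun x => γ i (ι x)) (fun y => ⟨β i y, h2' i y⟩), fun i => ?_, ?_, ?_⟩
  · exact Function.Injective.sumMap ((γ i).injective.comp ι.injective)
      (fun y z hh => h1 i (mem_univ _) (congrArg Fin.val hh))
  · intro i u v huv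
    rcases adj_cases _ (hb i) u v huv with ⟨x, y, rfl, rfl⟩ | ⟨x, y, rfl, rfl⟩ <;> simp
  · intro i j hij
    rw [Set.disjoint_left]
    rintro _ ⟨e, he, rfl⟩ ⟨e', he', hh⟩
    obtain ⟨x, y, a1, rfl⟩ := edge_cases _ (hb i) e he
    obtain ⟨x', y', a2, rfl⟩ := edge_cases _ (hb j) e' he'
    simp only [Sym2.map_mk, Sum.map_inl, Sum.map_inr, Sym2.eq_iff, Sum.inl.injEq, Sum.inr.injEq,
      Fin.mk.injEq, reduceCtorEq, and_self, or_false] at hh
    have := h3 i (mem_univ _) j (mem_univ _) hij y y' hh.2.symm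
    have m1 : γ i (ι x) ∈ act (γ i) ((nb (T i) y).map ι) := by
      rw [mem_act]; simpa [mem_nb] using a1
    have m2 : γ i (ι x) ∈ act (γ j) ((nb (T j) y').map ι) := by
      rw [← hh.1, mem_act]; simpa [mem_nb] using a2
    exact Finset.disjoint_left.1 this m1 m2

end Pool.Agent.Results.MP_4c107d_co.Finite
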